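import Pool.Agent.CPW.Asm

set_option autoImplicit false

/-! Weighted Hardy spaces on the unit disc, arbitrarily close to the Hardy space, without (CP). -/

namespace Pool.Agent.Results.MP_01c4da_an.HardyInstability

open Filter Topology Pool.Agent.CycP

/-- the unit disc -/
def Disc : Set (Fin 1 → ℂ) := Metric.ball 0 1

/-- the monomial `z ^ n` -/
noncomputable def mono (n : ℕ) : MvPolynomial (Fin 1) ℂ := MvPolynomial.X 0 ^ n

/-- the polynomial `1 - z / 2` -/
noncomputable def test : MvPolynomial (Fin 1) ℂ := 1 - MvPolynomial.C (1 / 2) * MvPolynomial.X 0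

variable {X : Type} [NormedAddCommGroup X] [InnerProductSpace ℂ X]

/-- `B` is the weighted Hardy space `H²(b)` on the unit disc: the monomials `z ^ n` are orthogonal
in `B` and have the norms `b n`. -/
def Hardy (b : ℕ → ℝ) (B : AnSpace 1 Disc X) : Prop :=
  ∀ m n : ℕ, inner ℂ (B.poly (mono m)) (B.poly (mono n)) = if m = n then ((b n : ℂ)) ^ 2 else 0

/-- A bounded operator `T` from `A` to `B` with `T f = f ∘ φ` for a map `φ` between the maximal
domains maps the function `1 - z / 2`, which is shift-cyclic in `A`, to a function which is not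
shift-cyclic in `B`. -/
def LosesCyclicity (A B : AnSpace 1 Disc X) : Prop :=
  ∃ (φ : B.maxDomain → A.maxDomain) (T : X →L[ℂ] X),
    (∀ (f : X) (w : B.maxDomain), B.ext (T f) w = A.ext f (φ w)) ∧
    A.Cyclic (A.poly test) ∧ ¬ B.Cyclic (T (A.poly test))

/-- `h` is the restriction to the unit disc of a bounded analytic function on the disc of
radius `2`. -/
def HInfTwo (h : (Fin 1 → ℂ) → ℂ) : Prop :=
  ∃ H : ℂ → ℂ, DifferentiableOn ℂ H (Metric.ball 0 2) ∧
    (∃ M : ℝ, ∀ z ∈ Metric.ball (0 : ℂ) 2, ‖H z‖ ≤ M) ∧ ∀ w ∈ Disc, h w = H (w 0)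

/-- Let `h n → ∞`, `h n ≥ 1`. There are a weight `b` with `1 ≤ b n ≤ h n` and `b (n+1) ≤ 2 b n`,
the Hardy space `A = H²` and the weighted Hardy space `B = H²(b)` on the unit disc (both given on
one Hilbert space `X`), such that the disc is the maximal domain of both spaces, and a bounded
composition operator from `A` to `B` maps the shift-cyclic function `1 - z / 2` to a function
which is not shift-cyclic. So `B` does not have (CP), although in `B` all multiplier-cyclic
functions are shift-cyclic. The multipliers of `B` are the bounded analytic functions on the disc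
of radius `2`. -/
theorem result (h : ℕ → ℝ) (h1 : ∀ n, 1 ≤ h n) (hh : Tendsto h atTop atTop) :
    ∃ b : ℕ → ℝ, (∀ n, 1 ≤ b n ∧ b n ≤ h n ∧ b (n + 1) ≤ 2 * b n) ∧
      ∃ (X : Type) (_ : NormedAddCommGroup X) (_ : InnerProductSpace ℂ X) (_ : CompleteSpace X)
        (A B : AnSpace 1 Disc X), Hardy (fun _ => 1) A ∧ Hardy b B ∧
        A.maxDomain = Disc ∧ B.maxDomain = Disc ∧ (∀ g, B.MultCyclic g → B.Cyclic g) ∧
        (∀ h, B.IsMultiplier h ↔ HInfTwo h) ∧ LosesCyclicity A B ∧ ¬ B.CP := by
  obtain ⟨b, hb, A, B, φ, T, r1, r2, r3, r4, r5, r6, r7, r8, r9, r10⟩ :=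
    Pool.Agent.CPW.thm h h1 hh
  exact ⟨b, hb, _, _, _, inferInstance, A, B, r1, r2, r3, r4, r5, r6, ⟨φ, T, r7, r8, r9⟩, r10⟩

end Pool.Agent.Results.MP_01c4da_an.HardyInstability
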