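import Pool.Agent.CycP.Har2

set_option autoImplicit false

/-! A characterisation of (CP) for Hardy type Hilbert spaces on simply connected plane domains. -/

namespace Pool.Agent.Results.MP_01c4da_an.HardyLattice

open Pool.Agent.CycP

/-- Let `Y` be a Hilbert space of analytic functions on `Ω`, with maximal domain `Ω`, for which all
bounded analytic functions are multipliers. Let `Φ` map `Ω` biholomorphically onto the unit disc
and let the multiplication by `Φ` be an isometry of `Y`. Then `Y` has (CP) if and only if every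
closed shift-invariant subspace of `Y` is invariant under all multipliers. -/
theorem result {Ω : Set (Fin 1 → ℂ)} {Y : Type} [NormedAddCommGroup Y] [InnerProductSpace ℂ Y]
    [CompleteSpace Y] (B : AnSpace 1 Ω Y) (hmax : B.maxDomain = Ω) (hH : B.HInfMultiplier)
    {Φ Ψ : (Fin 1 → ℂ) → Fin 1 → ℂ}
    (hΦ : AnalyticOnNhd ℂ Φ Ω) (hΨ : AnalyticOnNhd ℂ Ψ (Metric.ball 0 1))
    (hΦD : Set.MapsTo Φ Ω (Metric.ball 0 1)) (hΨΩ : Set.MapsTo Ψ (Metric.ball 0 1) Ω)
    (hinv : ∀ w ∈ Ω, Ψ (Φ w) = w) (hinv' : ∀ u ∈ Metric.ball 0 1, Φ (Ψ u) = u)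
    (hiso : ∀ f g : Y, (∀ w ∈ Ω, B.fn g w = Φ w 0 * B.fn f w) → ‖g‖ = ‖f‖) :
    B.CP ↔ ∀ M : Submodule ℂ Y, IsClosed (M : Set Y) → (∀ f ∈ M, B.shift 0 f ∈ M) →
      ∀ h, B.IsMultiplier h → ∀ f ∈ M, ∀ g, (∀ w ∈ Ω, B.fn g w = h w * B.fn f w) → g ∈ M :=
  cp_iff_invariant B hmax hH hΦ hΨ hΦD hΨΩ hinv hinv' hiso

end Pool.Agent.Results.MP_01c4da_an.HardyLattice
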