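import Pool.Agent.CycP.Cex

set_option autoImplicit false

/-! A Hilbert space of analytic functions without the property (CP): a unitary composition
operator `f ↦ f ∘ φ` between two Hilbert spaces of analytic functions on bounded open subsets of
the plane which maps a shift-cyclic function to a function which is not shift-cyclic. -/

namespace Pool.Agent.Results.MP_01c4da_an.UnitaryCounterexample

open Pool.Agent.CycP Polynomial

lemma phi_phi {z z' : ℕ → ℂ} {r r' ω : ℕ → ℝ} {R R' : ℝ} (hc : Cfg z r ω R)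
    (hc' : Cfg z' r' ω R') (j : ℕ) (w : Fin 1 → ℂ) :
    phi z' z r' r j (phi z z' r r' j w) = w := by
  funext i
  have hi : i = 0 := Subsingleton.elim _ _
  subst hi
  unfold phi
  rw [add_sub_cancel_left, mul_div_cancel_left₀ _ (rC hc' j), mul_div_cancel₀ _ (rC hc j)]
  ring

lemma dom_bounded {z : ℕ → ℂ} {r ω : ℕ → ℝ} {R : ℝ} (hc : Cfg z r ω R) :
    Bornology.IsBounded (dom z r) := by
  rw [isBounded_iff_forall_norm_le]
  refine ⟨R, fun w hw => ?_⟩
  obtain ⟨j, hj⟩ := hw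
  have hR : 0 ≤ R := by
    have h1 := hc.bdd 0
    have h2 := hc.r_pos 0
    have h3 := norm_nonneg (z 0)
    linarith
  rw [pi_norm_le_iff_of_nonneg hR]
  intro i
  have hi : i = 0 := Subsingleton.elim _ _
  subst hi
  have h1 := norm_sub_norm_le (w 0) (z j)
  have h2 := hc.bdd j
  linarith

theorem result :
    ∃ (H : Type) (_ : NormedAddCommGroup H) (_ : InnerProductSpace ℂ H) (_ : CompleteSpace H)
      (Ω Ω' : Set (Fin 1 → ℂ)) (A : AnSpace 1 Ω H) (B : AnSpace 1 Ω' H)
      (φ : B.maxDomain → A.maxDomain),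
      Bornology.IsBounded Ω ∧ Bornology.IsBounded Ω' ∧ A.maxDomain = Ω ∧ B.maxDomain = Ω' ∧
      Function.Bijective φ ∧
      (∀ f : H, ∀ w : B.maxDomain, B.ext f w = A.ext f (φ w)) ∧
      (∃ f : H, A.Cyclic f ∧ ¬ B.Cyclic f) ∧ ¬ B.CP := by
  obtain ⟨δ, hδ⟩ : ∃ δ : ℕ → ℝ, ∀ i, 0 < δ i ∧ ∀ j, j ≠ i → δ i ≤ ‖yz j - yz i‖ := by
    choose δ h1 h2 using yz_isolated
    exact ⟨δ, fun i => ⟨h1 i, h2 i⟩⟩
  obtain ⟨r, hr0, hr1, hsep⟩ := exists_radii yz δ (fun i => (hδ i).1) (fun i => (hδ i).2)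
  obtain ⟨ω, hc, hω0, hω, hd⟩ := weights hr0 (R := 2)
    (fun j => by have := yz_norm_lt j; have := hr1 j; linarith) hsep one_pos
  have hc' : Cfg bz br ω 2 :=
    ⟨br_pos, hc.w_pos, b_bd, disj_of_all br_pos b_sep, hc.summ⟩
  have hd' : DenseRange fun q : ℂ[X] => aeval (SS hc') q (oneV hc') :=
    dense_all hc' b_sep (fun j => oneV_apply hc' j) (wC hc')
  set A := spc hc' hd' with hA
  set B := spc hc hd with hB
  have hAm : A.maxDomain = dom bz br := spc_maxDomain hc' hd'
  have hBm : B.maxDomain = dom yz r := spc_maxDomain hc hd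
  have hB' : ∀ w : B.maxDomain, ∃ j, ‖(w : Fin 1 → ℂ) 0 - yz j‖ < r j := fun w => hBm.subset w.2
  choose J hJ using hB'
  have hmem : ∀ w : B.maxDomain, phi yz bz r br (J w) w ∈ A.maxDomain := fun w => by
    rw [hAm]
    exact ⟨J w, phi_mem hc hc' (hJ w)⟩
  let φ : B.maxDomain → A.maxDomain := fun w => ⟨phi yz bz r br (J w) w, hmem w⟩
  have hφ : ∀ w, ((φ w : A.maxDomain) : Fin 1 → ℂ) = phi yz bz r br (J w) w := fun w => rfl
  have hext : ∀ f : YY, ∀ w : B.maxDomain, B.ext f w = A.ext f (φ w) := by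
    intro f w
    have h1 : (w : Fin 1 → ℂ) ∈ dom yz r := hBm.subset w.2
    have h2 : phi yz bz r br (J w) w ∈ dom bz br := hAm.subset (φ w).2
    exact (spc_ext hc hd h1 f).trans ((val_phi hc hc' (hJ w) f).symm.trans
      (spc_ext hc' hd' h2 f).symm)
  have hcy : A.Cyclic gV := by
    rw [hA, spc_cyclic]
    exact dense_all hc' b_sep gV_apply (fun j => by
      have := cf_pos j
      exact_mod_cast this.ne')
  have hncy : ¬ B.Cyclic gV := by
    rw [hB, spc_cyclic]
    exact not_dense hc hω0 hω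
  refine ⟨YY, inferInstance, inferInstance, inferInstance, dom bz br, dom yz r, A, B, φ,
    dom_bounded hc', dom_bounded hc, hAm, hBm, ⟨?_, ?_⟩, hext, ⟨gV, hcy, hncy⟩, ?_⟩
  · intro w w' hww
    have h1 : phi yz bz r br (J w) w = phi yz bz r br (J w') w' := by
      rw [← hφ, ← hφ, hww]
    have h2 := phi_mem hc hc' (hJ w)
    have h3 := phi_mem hc hc' (hJ w')
    rw [← h1] at h3
    have h4 : J w = J w' := hc'.disj _ _ _ h2 h3
    rw [← h4] at h1
    have h5 := congrArg (phi bz yz br r (J w)) h1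
    rw [phi_phi hc hc', phi_phi hc hc'] at h5
    exact Subtype.ext h5
  · rintro ⟨v, hv⟩
    have hv' : v ∈ dom bz br := hAm.subset hv
    obtain ⟨j, hj⟩ := hv'
    have h1 := phi_mem hc' hc hj
    have h2 : phi bz yz br r j v ∈ B.maxDomain := by
      rw [hBm]
      exact ⟨j, h1⟩
    refine ⟨⟨_, h2⟩, Subtype.ext ?_⟩
    rw [hφ]
    have h3 : J ⟨_, h2⟩ = j := hc.disj _ _ _ (hJ ⟨_, h2⟩) h1
    rw [h3]
    exact phi_phi hc' hc j v
  · intro hcp
    apply hncy
    refine hcp 1 (dom bz br) YY _ _ inferInstance A φ (B.poly 1) (ContinuousLinearMap.id ℂ YY)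
      ?_ ?_ gV hcy
    · rw [hB, spc_cyclic, spc_poly]
      have : toP (1 : MvPolynomial (Fin 1) ℂ) = 1 := by
        unfold toP
        exact map_one _
      rw [this, map_one]
      exact hd
    · intro f w
      obtain ⟨L, hL⟩ := w.2
      rw [ContinuousLinearMap.id_apply, hext f w, B.ext_eq hL, hL 1, map_one, one_mul]

end Pool.Agent.Results.MP_01c4da_an.UnitaryCounterexample
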